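import Mathlib

/-!
Counting bound for sums of exact and perturbed k-th powers: fewer than `k + 1` terms never suffice.
(The same lemma as in MP_2fa62b_nt.LeastNumberOfTerms.)
-/

namespace Run7.h332.WP

/-- Counting: fewer than `k + 1` terms, exact or perturbed, do not suffice (`k ≥ 3`). -/
theorem lower (k : ℕ) (hk : 3 ≤ k) (x : ℕ → ℕ) (t q N₀ : ℕ)
    (h : ∀ m : ℕ, N₀ ≤ m → ∃ (a : Fin t → ℕ) (b : Fin q → ℕ),
      m = ∑ i, (a i) ^ k + ∑ i, ((b i) ^ k + x (b i))) : k + 1 ≤ t + q := by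
  classical
  by_contra hcon
  obtain ⟨p, hp⟩ : ∃ p, p + q = k := ⟨k - q, by omega⟩
  have htp : t ≤ p := by omega
  have h' : ∀ m : ℕ, N₀ ≤ m → ∃ (a : Fin p → ℕ) (b : Fin q → ℕ),
      m = ∑ i, (a i) ^ k + ∑ i, ((b i) ^ k + x (b i)) := by
    intro m hm
    obtain ⟨a, b, hb⟩ := h m hm
    obtain ⟨r, rfl⟩ : ∃ r, p = t + r := ⟨p - t, by omega⟩
    refine ⟨Fin.append a (fun _ => 0), b, ?_⟩
    rw [Fin.sum_univ_add]
    simp only [Fin.append_left, Fin.append_right]
    rw [zero_pow (by omega), Finset.sum_const_zero, add_zero]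
    exact hb
  set R : ℕ := 4 * k ^ 2 + 3 * N₀ + 3 with hR
  have hcount : R ^ k - N₀ ≤ (R + p - 1).choose p * (R + q - 1).choose q := by
    have h1 : Finset.Ico N₀ (R ^ k) ⊆
        (Finset.univ : Finset (Sym (Fin R) p × Sym (Fin R) q)).image
          (fun σ : Sym (Fin R) p × Sym (Fin R) q =>
            ((σ.1 : Multiset (Fin R)).map (fun y : Fin R => (y : ℕ) ^ k)).sum +
            ((σ.2 : Multiset (Fin R)).map (fun y : Fin R => (y : ℕ) ^ k + x (y : ℕ))).sum) := by
      intro m hm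
      rw [Finset.mem_Ico] at hm
      obtain ⟨a, b, hb⟩ := h' m hm.1
      have hlta : ∀ i, a i < R := by
        intro i
        have h2 : (a i) ^ k ≤ ∑ i, (a i) ^ k :=
          Finset.single_le_sum (f := fun i => (a i) ^ k) (fun _ _ => Nat.zero_le _)
            (Finset.mem_univ i)
        have h3 : (a i) ^ k < R ^ k := by omega
        exact lt_of_pow_lt_pow_left₀ k (Nat.zero_le _) h3
      have hltb : ∀ i, b i < R := by
        intro i
        have h2 : (b i) ^ k + x (b i) ≤ ∑ i, ((b i) ^ k + x (b i)) :=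
          Finset.single_le_sum (f := fun i => (b i) ^ k + x (b i)) (fun _ _ => Nat.zero_le _)
            (Finset.mem_univ i)
        have h3 : (b i) ^ k < R ^ k := by omega
        exact lt_of_pow_lt_pow_left₀ k (Nat.zero_le _) h3
      rw [Finset.mem_image]
      refine ⟨(⟨(Finset.univ : Finset (Fin p)).val.map (fun i => (⟨a i, hlta i⟩ : Fin R)), by simp⟩,
        ⟨(Finset.univ : Finset (Fin q)).val.map (fun i => (⟨b i, hltb i⟩ : Fin R)), by simp⟩),
        Finset.mem_univ _, ?_⟩
      rw [hb]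
      show (Multiset.map (fun y : Fin R => (y : ℕ) ^ k)
          ((Finset.univ : Finset (Fin p)).val.map (fun i => (⟨a i, hlta i⟩ : Fin R)))).sum +
        (Multiset.map (fun y : Fin R => (y : ℕ) ^ k + x (y : ℕ))
          ((Finset.univ : Finset (Fin q)).val.map (fun i => (⟨b i, hltb i⟩ : Fin R)))).sum = _
      rw [Multiset.map_map, Multiset.map_map]
      rfl
    have h2 := Finset.card_le_card h1
    rw [Nat.card_Ico] at h2
    refine le_trans h2 (le_trans Finset.card_image_le ?_)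
    rw [Finset.card_univ, Fintype.card_prod, Sym.card_sym_eq_choose, Sym.card_sym_eq_choose,
      Fintype.card_fin]
  have hone : ∀ s : ℕ, s ≤ k → ((R + s - 1).choose s : ℝ) ≤ (R + k : ℝ) ^ s / (s.factorial : ℝ) := by
    intro s hs
    have h1 : ((R + s - 1).choose s : ℝ) ≤ ((R + s - 1 : ℕ) : ℝ) ^ s / (s.factorial : ℝ) :=
      Nat.choose_le_pow_div s (R + s - 1)
    have h2 : ((R + s - 1 : ℕ) : ℝ) ≤ (R + k : ℝ) := by
      have : R + s - 1 ≤ R + k := by omega
      exact_mod_cast this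
    refine le_trans h1 ?_
    gcongr
  have hch : (((R + p - 1).choose p * (R + q - 1).choose q : ℕ) : ℝ) ≤ (R + k : ℝ) ^ k / 2 := by
    have h3 : 2 ≤ p.factorial * q.factorial := by
      have h4 : 1 ≤ p.factorial := Nat.factorial_pos p
      have h5 : 1 ≤ q.factorial := Nat.factorial_pos q
      rcases Nat.lt_or_ge 1 p with h6 | h6
      · have h7 : Nat.factorial 2 ≤ p.factorial := Nat.factorial_le h6
        have h8 : Nat.factorial 2 = 2 := rfl
        nlinarith
      · have h7 : Nat.factorial 2 ≤ q.factorial := Nat.factorial_le (by omega)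
        have h8 : Nat.factorial 2 = 2 := rfl
        nlinarith
    have h4 : (2 : ℝ) ≤ (p.factorial : ℝ) * (q.factorial : ℝ) := by exact_mod_cast h3
    push_cast
    calc ((R + p - 1).choose p : ℝ) * ((R + q - 1).choose q : ℝ)
        ≤ ((R + k : ℝ) ^ p / (p.factorial : ℝ)) * ((R + k : ℝ) ^ q / (q.factorial : ℝ)) := by
          have h5 := hone p (by omega)
          have h6 := hone q (by omega)
          gcongr
      _ = (R + k : ℝ) ^ k / ((p.factorial : ℝ) * (q.factorial : ℝ)) := by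
          rw [div_mul_div_comm, ← pow_add, hp]
      _ ≤ (R + k : ℝ) ^ k / 2 := by gcongr
  have hbern : (R + k : ℝ) ^ k * (3 / 4) ≤ (R : ℝ) ^ k := by
    have hRk : (0 : ℝ) < R + k := by positivity
    have h0 : (-2 : ℝ) ≤ -((k : ℝ) / (R + k)) := by
      have : (k : ℝ) / (R + k) ≤ 1 := by
        rw [div_le_one hRk]
        linarith [(Nat.cast_nonneg R : (0 : ℝ) ≤ R)]
      linarith
    have h1 := one_add_mul_le_pow h0 k
    have h2 : 1 + -((k : ℝ) / (R + k)) = R / (R + k) := by field_simp; ring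
    rw [h2, div_pow] at h1
    have h3 : (k : ℝ) * ((k : ℝ) / (R + k)) ≤ 1 / 4 := by
      rw [← mul_div_assoc, div_le_iff₀ hRk]
      have : (4 : ℝ) * k ^ 2 ≤ R := by
        rw [hR]
        push_cast
        have := (Nat.cast_nonneg N₀ : (0 : ℝ) ≤ N₀)
        linarith
      nlinarith [(Nat.cast_nonneg k : (0 : ℝ) ≤ k)]
    have h4 : (3 / 4 : ℝ) ≤ (R : ℝ) ^ k / (R + k) ^ k := by
      refine le_trans ?_ h1
      linarith
    rw [le_div_iff₀ (by positivity)] at h4
    linarith
  have hN : (N₀ : ℝ) < (R : ℝ) ^ k / 3 := by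
    have h1 : (R : ℝ) ≤ (R : ℝ) ^ k := by
      have : R ≤ R ^ k := Nat.le_self_pow (by omega) _
      exact_mod_cast this
    have h2 : 3 * (N₀ : ℝ) + 3 ≤ R := by
      rw [hR]
      push_cast
      nlinarith [sq_nonneg (k : ℝ)]
    linarith
  have hc2 : (R : ℝ) ^ k - N₀ ≤ (((R + p - 1).choose p * (R + q - 1).choose q : ℕ) : ℝ) := by
    have : R ^ k ≤ (R + p - 1).choose p * (R + q - 1).choose q + N₀ := by omega
    have h3 : ((R ^ k : ℕ) : ℝ) ≤ (((R + p - 1).choose p * (R + q - 1).choose q + N₀ : ℕ) : ℝ) := by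
      exact_mod_cast this
    push_cast at h3 ⊢
    linarith
  have hpos : (0 : ℝ) < (R : ℝ) ^ k := by
    have : 0 < R := by omega
    positivity
  linarith

end Run7.h332.WP
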