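import Pool.Agent.Run7.h274.WarGreedy

/-!
Random perturbations of k-th powers: version of helper274's theorem `WarAsym.basis` with positive
indices in which the
number `q` of perturbed terms only has to exceed `κ k`, where `N ^ κ` is the size of the gaps of the
sums of the exact terms (in `WarAsym.basis` it is at least `δ k`, where `N ^ δ` is the size of the
perturbations). The proof is his, with `min δ (q / k)` at the place of `δ` in the choice of the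
parameters.
-/

open MeasureTheory ProbabilityTheory Filter Topology
open scoped ENNReal

namespace Run7.h332.WP

open Pool.Agent.Run7.h274.WarCore Pool.Agent.Run7.h274.WarOne Pool.Agent.Run7.h274.WarAsym

theorem B_rep' (k M K : ℕ) (A : (ℕ → ℕ) → Set ℕ) (v : ℕ → ℕ) :
    ∀ i z, z ∈ B k (T M K) A i v → ∃ a ∈ A v, ∃ b : Fin i → ℕ, (∀ j, 1 ≤ b j) ∧
      z = a + ∑ j, ((b j) ^ k + v (b j)) := by
  intro i
  induction i with
  | zero =>
    intro z hz
    exact ⟨z, hz, Fin.elim0, fun j => j.elim0, by simp⟩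
  | succ i ih =>
    rintro z ⟨z', hz', n, hn, rfl⟩
    obtain ⟨a, ha, b, hb1, rfl⟩ := ih z' hz'
    have hn1 : 1 ≤ n := by
      unfold T at hn
      rw [Finset.mem_image] at hn
      obtain ⟨j, _, rfl⟩ := hn
      omega
    refine ⟨a, ha, Fin.snoc b n, ?_, ?_⟩
    · intro j
      refine Fin.lastCases ?_ (fun j => ?_) j
      · rw [Fin.snoc_last]
        exact hn1
      · rw [Fin.snoc_castSucc]
        exact hb1 j
    · rw [Fin.sum_univ_castSucc]
      simp only [Fin.snoc_castSucc, Fin.snoc_last]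
      ring

variable {Ω : Type*} [MeasurableSpace Ω] {P : Measure Ω} [IsProbabilityMeasure P]

theorem basis3 (ξ : ℕ → Ω → ℕ) (hm : ∀ n, Measurable (ξ n)) (hind : iIndepFun ξ P)
    (k : ℕ) (hk : 2 ≤ k) (δ : ℝ) (hδ0 : 0 < δ) (hδ1 : δ * k ≤ k - 1) (c : ℝ) (hc : 0 < c)
    (hdens : ∀ n j : ℕ, 1 ≤ n → (j : ℝ) ≤ (n : ℝ) ^ (δ * k) →
      c / (n : ℝ) ^ (δ * k) ≤ P.real (ξ n ⁻¹' {j}))
    (κ : ℝ) (hκ0 : 0 ≤ κ) (hκ : κ < δ) (q : ℕ) (hq : κ * k < q) (C : ℝ)
    (A : ℕ → (ℕ → ℕ) → Set ℕ)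
    (hA : ∀ (N : ℕ) (v v' : ℕ → ℕ), (∀ n, n ≤ N → n % (q + 1) = 0 → v n = v' n) → A N v = A N v')
    (hAgap : ∀ (N : ℕ) (ω : Ω) (y : ℕ), y ≤ N → ∃ b ∈ A N (fun n => ξ n ω), b ≤ y ∧
      (y : ℝ) - b ≤ C * (N : ℝ) ^ κ) :
    ∀ᵐ ω ∂P, ∀ᶠ N : ℕ in atTop, ∃ a ∈ A N (fun n => ξ n ω), ∃ b : Fin q → ℕ,
      (∀ i, 1 ≤ b i) ∧ N = a + ∑ i, ((b i) ^ k + ξ (b i) ω) := by
  classical
  have hkR : (2 : ℝ) ≤ k := by exact_mod_cast hk
  have hkpos : (0 : ℝ) < k := by linarith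
  have hq1 : 1 ≤ q := by
    by_contra h
    have : q = 0 := by omega
    rw [this, Nat.cast_zero] at hq
    have : 0 ≤ κ * k := by positivity
    linarith
  have hqR : (1 : ℝ) ≤ q := by exact_mod_cast hq1
  set M : ℕ := q + 1 with hM
  have hMR : (0 : ℝ) < M := by rw [hM]; positivity
  set δ' : ℝ := min δ ((q : ℝ) / k) with hδ'
  have hδ'1 : δ' ≤ δ := min_le_left _ _
  have hδ'2 : δ' ≤ (q : ℝ) / k := min_le_right _ _
  have hκ' : κ < δ' := lt_min hκ (by rw [lt_div_iff₀ hkpos]; exact hq)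
  set η : ℝ := (δ' - κ) / 2 with hη
  have hηpos : 0 < η := by rw [hη]; linarith
  set η' : ℝ := (δ' - κ) / (2 * q) with hη'
  have hη'pos : 0 < η' := by rw [hη']; exact div_pos (by linarith) (by linarith)
  set ρ : ℝ := 1 / k - η' with hρ
  have hρ0 : 0 ≤ ρ := by
    have h1 : (δ' - κ) / (2 * q) ≤ 1 / k := by
      rw [div_le_iff₀ (by linarith)]
      have h2 : 1 / (k : ℝ) * (2 * q) = 2 * ((q : ℝ) / k) := by field_simp
      rw [h2]
      have h3 : (0 : ℝ) ≤ (q : ℝ) / k := by positivity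
      linarith
    rw [hρ, hη', sub_nonneg]
    exact h1
  have hαq : κ + η - q * ρ ≤ 0 := by
    have h1 : q * η' = η := by rw [hη', hη]; field_simp
    have h2 : δ' ≤ q * (1 / k) := by
      rw [mul_one_div]
      exact hδ'2
    have h3 : κ + 2 * η = δ' := by rw [hη]; ring
    have h4 : q * ρ = q * (1 / k) - q * η' := by rw [hρ]; ring
    rw [h4, h1]
    linarith
  set e : ℝ := 1 / (4 * q * M) with he
  have hepos : 0 < e := by rw [he]; positivity
  let K : ℕ → ℕ := fun N => ⌊(N : ℝ) ^ (1 / (k : ℝ)) / (2 * q * M)⌋₊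
  let W : ℕ → ℕ → ℕ := fun N i => ⌈(N : ℝ) ^ (κ + η - i * ρ)⌉₊
  let L : ℕ → ℕ := fun n => ⌊(n : ℝ) ^ (δ * k)⌋₊
  -- eventual facts
  have t1 : Tendsto (fun N : ℕ => (N : ℝ) ^ (1 / (k : ℝ))) atTop atTop :=
    (tendsto_rpow_atTop (by positivity)).comp tendsto_natCast_atTop_atTop
  have t2 : Tendsto (fun N : ℕ => (N : ℝ) ^ η) atTop atTop :=
    (tendsto_rpow_atTop hηpos).comp tendsto_natCast_atTop_atTop
  have ev : ∀ᶠ N : ℕ in atTop, 1 ≤ N ∧ 4 * q * M ≤ (N : ℝ) ^ (1 / (k : ℝ)) ∧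
      C < (N : ℝ) ^ η ∧ 4 / e ^ (δ * k) ≤ (N : ℝ) ^ η := by
    filter_upwards [eventually_ge_atTop 1, t1.eventually_ge_atTop (4 * q * M),
      t2.eventually_gt_atTop C, t2.eventually_ge_atTop (4 / e ^ (δ * k))] with N h1 h2 h3 h4
    exact ⟨h1, h2, h3, h4⟩
  obtain ⟨N₀, hN₀⟩ := eventually_atTop.mp ev
  have main : ∀ N, N₀ ≤ N → P {ω | N ∉ B k (T M (K N)) (A N) q (fun n => ξ n ω)} ≤
      ENNReal.ofReal (((q * (N + 1) : ℕ) : ℝ) * Real.exp (-((c / 8 * e) * (N : ℝ) ^ η'))) := by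
    intro N hN
    obtain ⟨n1, n2, n3, n4⟩ := hN₀ N hN
    have hN1 : (1 : ℝ) ≤ N := by exact_mod_cast n1
    have hNpos : (0 : ℝ) < N := by linarith
    have hKlow : e * (N : ℝ) ^ (1 / (k : ℝ)) ≤ K N := by
      have h1 : (N : ℝ) ^ (1 / (k : ℝ)) / (2 * q * M) < K N + 1 := Nat.lt_floor_add_one _
      have h2 : (1 : ℝ) ≤ e * (N : ℝ) ^ (1 / (k : ℝ)) := by
        rw [he, one_div, ← div_eq_inv_mul, le_div_iff₀ (by positivity)]
        linarith
      have h3 : (N : ℝ) ^ (1 / (k : ℝ)) / (2 * q * M) = 2 * (e * (N : ℝ) ^ (1 / (k : ℝ))) := by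
        rw [he]; field_simp; ring
      linarith
    have hK1 : 1 ≤ K N := by
      have h2 : (1 : ℝ) ≤ e * (N : ℝ) ^ (1 / (k : ℝ)) := by
        rw [he, one_div, ← div_eq_inv_mul, le_div_iff₀ (by positivity)]
        linarith
      have : (1 : ℝ) ≤ K N := by linarith
      exact_mod_cast this
    have hKup : (K N : ℝ) ≤ (N : ℝ) ^ (1 / (k : ℝ)) / (2 * q * M) := Nat.floor_le (by positivity)
    have hW1 : ∀ i, 1 ≤ W N i := fun i => Nat.one_le_ceil_iff.mpr (by positivity)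
    have hWm : ∀ i, W N (i + 1) ≤ W N i := by
      intro i
      refine Nat.ceil_mono (Real.rpow_le_rpow_of_exponent_le hN1 ?_)
      push_cast
      linarith
    have hWq : W N q = 1 := by
      refine le_antisymm ?_ (hW1 q)
      refine Nat.ceil_le.mpr ?_
      rw [Nat.cast_one]
      exact Real.rpow_le_one_of_one_le_of_nonpos hN1 hαq
    have hW0low : (N : ℝ) ^ (κ + η) ≤ W N 0 := by
      have h := Nat.le_ceil ((N : ℝ) ^ (κ + η - (0 : ℕ) * ρ))
      rw [Nat.cast_zero, zero_mul, sub_zero] at h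
      show (N : ℝ) ^ (κ + η) ≤ ((⌈(N : ℝ) ^ (κ + η - (0 : ℕ) * ρ)⌉₊ : ℕ) : ℝ)
      rw [Nat.cast_zero, zero_mul, sub_zero]
      exact h
    have hWup : ∀ i : ℕ, (W N i : ℝ) ≤ (N : ℝ) ^ (κ + η - i * ρ) + 1 := fun i =>
      (Nat.ceil_lt_add_one (by positivity)).le
    have hWlow : ∀ i : ℕ, (N : ℝ) ^ (κ + η - i * ρ) ≤ W N i := fun i => Nat.le_ceil _
    have hgap : ∀ ω, Gap (A N (fun n => ξ n ω)) (W N 0) 0 N := by
      intro ω y _ hy
      obtain ⟨b, hb, h1, h2⟩ := hAgap N ω y hy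
      refine ⟨b, hb, h1, ?_⟩
      have h3 : (y : ℝ) < b + W N 0 := by
        have h4 : C * (N : ℝ) ^ κ < (N : ℝ) ^ (κ + η) := by
          rw [Real.rpow_add hNpos, mul_comm]
          exact mul_lt_mul_of_pos_left n3 (by positivity)
        linarith
      exact_mod_cast h3
    have hLbig : ∀ n, K N ≤ n → 2 * W N 0 ≤ L n + 1 := by
      intro n hn
      have h1 : ((2 * W N 0 : ℕ) : ℝ) ≤ (n : ℝ) ^ (δ * k) := by
        have h2 : (W N 0 : ℝ) ≤ (N : ℝ) ^ (κ + η) + 1 := by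
          have := hWup 0
          rw [Nat.cast_zero, zero_mul, sub_zero] at this
          exact this
        have h3 : (1 : ℝ) ≤ (N : ℝ) ^ (κ + η) := Real.one_le_rpow hN1 (by linarith)
        have h4 : (e * (N : ℝ) ^ (1 / (k : ℝ))) ^ (δ * k) ≤ (n : ℝ) ^ (δ * k) := by
          refine Real.rpow_le_rpow (by positivity) ?_ (by positivity)
          exact le_trans hKlow (by exact_mod_cast hn)
        have h5 : (e * (N : ℝ) ^ (1 / (k : ℝ))) ^ (δ * k) = e ^ (δ * k) * (N : ℝ) ^ δ := by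
          rw [Real.mul_rpow hepos.le (by positivity), ← Real.rpow_mul hNpos.le]
          congr 2
          field_simp
        have h6 : (N : ℝ) ^ δ' = (N : ℝ) ^ (κ + η) * (N : ℝ) ^ η := by
          rw [← Real.rpow_add hNpos]
          congr 1
          rw [hη]; ring
        have h8 : (N : ℝ) ^ δ' ≤ (N : ℝ) ^ δ := Real.rpow_le_rpow_of_exponent_le hN1 hδ'1
        have h7 : 4 ≤ e ^ (δ * k) * (N : ℝ) ^ η := by
          rw [div_le_iff₀ (by positivity), mul_comm] at n4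
          exact n4
        push_cast
        calc 2 * (W N 0 : ℝ) ≤ 4 * (N : ℝ) ^ (κ + η) := by linarith
          _ ≤ (e ^ (δ * k) * (N : ℝ) ^ η) * (N : ℝ) ^ (κ + η) := by gcongr
          _ = e ^ (δ * k) * (N : ℝ) ^ δ' := by rw [h6]; ring
          _ ≤ e ^ (δ * k) * (N : ℝ) ^ δ := by gcongr
          _ ≤ (n : ℝ) ^ (δ * k) := by rw [← h5]; exact h4
      exact le_trans (Nat.le_floor h1) (Nat.le_succ _)
    have hLk : ∀ n, K N ≤ n → n ^ k + L n ≤ (n + 1) ^ k := by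
      intro n hn
      refine le_trans (Nat.add_le_add_left ?_ _) (pow_gap n k (by omega))
      have h1 : (n : ℝ) ^ (δ * k) ≤ ((n ^ (k - 1) : ℕ) : ℝ) := by
        push_cast
        rw [← Real.rpow_natCast]
        refine Real.rpow_le_rpow_of_exponent_le (by exact_mod_cast le_trans hK1 hn) ?_
        rw [Nat.cast_sub (by omega), Nat.cast_one]
        exact hδ1
      have h2 : (L n : ℝ) ≤ ((n ^ (k - 1) : ℕ) : ℝ) :=
        le_trans (Nat.floor_le (by positivity)) h1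
      exact_mod_cast h2
    have hKN : q * (2 * K N * M) ^ k ≤ N := by
      have h1 : (2 * (K N : ℝ) * M) ≤ (N : ℝ) ^ (1 / (k : ℝ)) / q := by
        calc (2 * (K N : ℝ) * M) ≤ 2 * ((N : ℝ) ^ (1 / (k : ℝ)) / (2 * q * M)) * M := by gcongr
          _ = _ := by field_simp
      have h2 : (2 * (K N : ℝ) * M) ^ k ≤ N / (q : ℝ) ^ k := by
        calc (2 * (K N : ℝ) * M) ^ k ≤ ((N : ℝ) ^ (1 / (k : ℝ)) / q) ^ k := by gcongr
          _ = N / (q : ℝ) ^ k := by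
            rw [div_pow, ← Real.rpow_natCast ((N : ℝ) ^ (1 / (k : ℝ))), ← Real.rpow_mul hNpos.le,
              one_div, inv_mul_cancel₀ (ne_of_gt hkpos), Real.rpow_one]
      have h3 : (q : ℝ) * (2 * (K N : ℝ) * M) ^ k ≤ N := by
        have h4 : (q : ℝ) ≤ (q : ℝ) ^ k := le_self_pow₀ hqR (by omega)
        calc (q : ℝ) * (2 * (K N : ℝ) * M) ^ k ≤ q * (N / (q : ℝ) ^ k) := by gcongr
          _ = N * (q / (q : ℝ) ^ k) := by ring
          _ ≤ N * 1 := by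
            gcongr
            exact (div_le_one (by positivity)).mpr h4
          _ = N := mul_one _
      exact_mod_cast h3
    have hd' : ∀ n, K N ≤ n → ∀ j, j ≤ L n →
        c / ((L n : ℝ) + 1) ≤ P.real (ξ n ⁻¹' {j}) := by
      intro n hn j hj
      have hn1 : 1 ≤ n := le_trans hK1 hn
      have hn1' : (0 : ℝ) < n := by exact_mod_cast hn1
      have h1 : (j : ℝ) ≤ (n : ℝ) ^ (δ * k) :=
        le_trans (by exact_mod_cast hj) (Nat.floor_le (by positivity))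
      refine le_trans ?_ (hdens n j hn1 h1)
      gcongr
      exact (Nat.lt_floor_add_one _).le
    have hx : ∀ i < q, (c / 8 * (N : ℝ) ^ (-ρ)) * (4 * W N i) ≤ c * W N (i + 1) := by
      intro i _
      have h1 : (N : ℝ) ^ (-ρ) * W N i ≤ 2 * W N (i + 1) := by
        have h2 : (N : ℝ) ^ (-ρ) * W N i ≤ (N : ℝ) ^ (-ρ) * ((N : ℝ) ^ (κ + η - i * ρ) + 1) :=
          mul_le_mul_of_nonneg_left (hWup i) (by positivity)
        have h3 : (N : ℝ) ^ (-ρ) * (N : ℝ) ^ (κ + η - i * ρ) =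
            (N : ℝ) ^ (κ + η - ((i + 1 : ℕ) : ℝ) * ρ) := by
          rw [← Real.rpow_add hNpos]
          congr 1
          push_cast
          ring
        have h4 : (N : ℝ) ^ (-ρ) ≤ 1 := Real.rpow_le_one_of_one_le_of_nonpos hN1 (by linarith)
        have h5 := hWlow (i + 1)
        have h6 : (1 : ℝ) ≤ W N (i + 1) := by exact_mod_cast hW1 (i + 1)
        rw [mul_add, h3, mul_one] at h2
        linarith
      calc (c / 8 * (N : ℝ) ^ (-ρ)) * (4 * W N i) = c / 2 * ((N : ℝ) ^ (-ρ) * W N i) := by ring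
        _ ≤ c / 2 * (2 * W N (i + 1)) := by gcongr
        _ = c * W N (i + 1) := by ring
    have hone := oneN ξ hm hind k M (K N) N q hM (by omega) (A N) (hA N) (W N) hW1 hWm hWq hgap hq1
      hKN L hLbig hLk c hc hd' (c / 8 * (N : ℝ) ^ (-ρ)) hx
    refine le_trans hone ?_
    rw [← ENNReal.ofReal_pow (Real.exp_pos _).le, ← Real.exp_nat_mul, ← ENNReal.ofReal_natCast,
      ← ENNReal.ofReal_mul (by positivity)]
    refine ENNReal.ofReal_le_ofReal (mul_le_mul_of_nonneg_left (Real.exp_le_exp.mpr ?_)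
      (by positivity))
    rw [mul_neg, neg_le_neg_iff]
    calc (c / 8 * e) * (N : ℝ) ^ η' = (e * (N : ℝ) ^ (1 / (k : ℝ))) * (c / 8 * (N : ℝ) ^ (-ρ)) := by
          have : (N : ℝ) ^ η' = (N : ℝ) ^ (1 / (k : ℝ)) * (N : ℝ) ^ (-ρ) := by
            rw [← Real.rpow_add hNpos]
            congr 1
            rw [hρ]; ring
          rw [this]; ring
      _ ≤ (K N : ℝ) * (c / 8 * (N : ℝ) ^ (-ρ)) := by gcongr
  have hsum := summ (c / 8 * e) η' (by positivity) hη'pos q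
  have hfin : ∑' N : ℕ, P {ω | N₀ ≤ N ∧ N ∉ B k (T M (K N)) (A N) q (fun n => ξ n ω)} ≠ ∞ := by
    refine ne_top_of_le_ne_top hsum.tsum_ofReal_ne_top (ENNReal.tsum_le_tsum fun N => ?_)
    by_cases h : N₀ ≤ N
    · refine le_trans (measure_mono ?_) (main N h)
      rintro ω ⟨_, h2⟩
      exact h2
    · have : {ω | N₀ ≤ N ∧ N ∉ B k (T M (K N)) (A N) q (fun n => ξ n ω)} = ∅ := by
        rw [Set.eq_empty_iff_forall_notMem]
        rintro ω ⟨h1, _⟩
        exact h h1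
      rw [this, measure_empty]
      exact zero_le
  filter_upwards [ae_eventually_notMem hfin] with ω hω
  filter_upwards [hω, eventually_ge_atTop N₀] with N hN1 hN2
  have hmem : N ∈ B k (T M (K N)) (A N) q (fun n => ξ n ω) := by
    by_contra h
    exact hN1 ⟨hN2, h⟩
  exact B_rep' k M (K N) _ _ q N hmem

/-- **Positive form.** Let `k ≥ 2`, `0 < δ ≤ 1 - 1/k`. Almost surely, for all `t`, `q` with
`(1 - 1/k) ^ t < δ` and `k (1 - 1/k) ^ t < q`, every large integer is a sum of `t` `k`-th powers of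
positive integers and `q` numbers `n ^ k + ξ n`, `n ≥ 1`. -/
theorem positive (k : ℕ) (hk : 2 ≤ k) (δ : ℝ) (hδ0 : 0 < δ) (hδ1 : δ ≤ 1 - 1 / (k : ℝ)) (c : ℝ)
    (hc : 0 < c) (ξ : ℕ → Ω → ℕ) (hm : ∀ n, Measurable (ξ n)) (hind : iIndepFun ξ P)
    (hdens : ∀ n j : ℕ, 1 ≤ n → (j : ℝ) ≤ (n : ℝ) ^ (δ * k) →
      c / (n : ℝ) ^ (δ * k) ≤ P.real {ω | ξ n ω = j}) :
    ∀ᵐ ω ∂P, ∀ t q : ℕ, (1 - 1 / (k : ℝ)) ^ t < δ → k * (1 - 1 / (k : ℝ)) ^ t < q →
      ∃ N₀ : ℕ, ∀ m : ℕ, N₀ ≤ m → ∃ (a : Fin t → ℕ) (b : Fin q → ℕ), (∀ i, 1 ≤ a i) ∧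
        (∀ i, 1 ≤ b i) ∧ m = ∑ i, (a i) ^ k + ∑ i, ((b i) ^ k + ξ (b i) ω) := by
  have hkR : (2 : ℝ) ≤ k := by exact_mod_cast hk
  have hkpos : (0 : ℝ) < k := by linarith
  have hr0 : (0 : ℝ) ≤ 1 - 1 / (k : ℝ) := by
    rw [sub_nonneg, div_le_one hkpos]
    linarith
  have hδk : δ * k ≤ k - 1 := by
    have h1 : δ * k ≤ (1 - 1 / (k : ℝ)) * k := mul_le_mul_of_nonneg_right hδ1 hkpos.le
    have h2 : (1 - 1 / (k : ℝ)) * k = k - 1 := by field_simp
    linarith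
  have hdens' : ∀ n j : ℕ, 1 ≤ n → (j : ℝ) ≤ (n : ℝ) ^ (δ * k) →
      c / (n : ℝ) ^ (δ * k) ≤ P.real (ξ n ⁻¹' {j}) := hdens
  rw [ae_all_iff]
  intro t
  rw [ae_all_iff]
  intro q
  by_cases ht : (1 - 1 / (k : ℝ)) ^ t < δ
  swap
  · exact Filter.Eventually.of_forall fun ω h => absurd h ht
  by_cases hq : k * (1 - 1 / (k : ℝ)) ^ t < q
  swap
  · exact Filter.Eventually.of_forall fun ω _ h => absurd h hq
  have hκ0 : (0 : ℝ) ≤ (1 - 1 / (k : ℝ)) ^ t := pow_nonneg hr0 t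
  have hq' : (1 - 1 / (k : ℝ)) ^ t * k < q := by rw [mul_comm]; exact hq
  obtain ⟨C, hC, hg⟩ := Pool.Agent.Run7.h274.WarGreedy.greedy k hk 1 le_rfl t
  have e1 := basis3 (P := P) ξ hm hind k hk δ hδ0 hδk c hc hdens' ((1 - 1 / (k : ℝ)) ^ t) hκ0 ht
    q hq' C (fun _ _ => {z | ∃ a : Fin t → ℕ, z = ∑ i, ((a i + 1) ^ k - 1)}) (fun _ _ _ _ => rfl)
    (by
      intro N ω y hy
      obtain ⟨a, _, h2, h3⟩ := hg (fun n => (n + 1) ^ k - 1) (by simp)
        (fun n => by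
          have h1 : n ^ k + 1 ≤ (n + 1) ^ k := by
            have h4 : n ^ k < (n + 1) ^ k := Nat.pow_lt_pow_left (by omega) (by omega)
            omega
          constructor
          · show n ^ k ≤ (n + 1) ^ k - 1
            omega
          · show (n + 1) ^ k - 1 ≤ (n + 1) ^ k
            omega) y
      refine ⟨∑ i, ((a i + 1) ^ k - 1), ⟨a, rfl⟩, h2, le_trans h3 ?_⟩
      refine mul_le_mul_of_nonneg_left (Real.rpow_le_rpow (Nat.cast_nonneg y) ?_ hκ0) hC.le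
      exact_mod_cast hy)
  filter_upwards [e1] with ω h1 _ _
  obtain ⟨N₁, hN₁⟩ := eventually_atTop.mp h1
  refine ⟨N₁ + t, fun m hm => ?_⟩
  obtain ⟨z, ⟨a, rfl⟩, b, hb1, hb⟩ := hN₁ (m - t) (by omega)
  refine ⟨fun i => a i + 1, b, fun i => Nat.le_add_left 1 _, hb1, ?_⟩
  have h5 : ∑ i, (a i + 1) ^ k = ∑ i, ((a i + 1) ^ k - 1) + t := by
    have h6 : ∀ i : Fin t, (a i + 1) ^ k = ((a i + 1) ^ k - 1) + 1 := fun i => by
      have := Nat.one_le_pow k (a i + 1) (by omega)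
      omega
    rw [Finset.sum_congr rfl fun i _ => h6 i, Finset.sum_add_distrib]
    simp
  rw [h5]
  omega

end Run7.h332.WP
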