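import Pool.Agent.Run7.h332.WP.Basis3

/-!
Gaps of sums of mixed sequences (greedy), and one perturbed power added.
-/

open MeasureTheory ProbabilityTheory Filter

namespace Run7.h332.WP

/-- `A` has gaps at most `C y ^ κ` (from below). -/
def Gap (A : Set ℕ) (κ : ℝ) : Prop :=
  ∃ C : ℝ, 0 ≤ C ∧ ∀ y : ℕ, ∃ s ∈ A, s ≤ y ∧ (y : ℝ) - s ≤ C * (y : ℝ) ^ κ

theorem gap_seq (k : ℕ) (hk : 2 ≤ k) (D : ℕ) (f : ℕ → ℕ) (hf0 : f 0 = 0)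
    (hlow : ∀ j, j ^ k ≤ D * f j) (hstep : ∀ j, f (j + 1) ≤ f j + D * (j ^ (k - 1) + 1)) :
    Gap (Set.range f) (1 - 1 / (k : ℝ)) := by
  have hkR : (2 : ℝ) ≤ k := by exact_mod_cast hk
  have hkpos : (0 : ℝ) < k := by linarith
  have hθ0 : (0 : ℝ) < 1 - 1 / (k : ℝ) := by
    rw [sub_pos, div_lt_one hkpos]
    linarith
  refine ⟨(D : ℝ) * ((D : ℝ) ^ (1 - 1 / (k : ℝ)) + 1), by positivity, fun y => ?_⟩
  rcases Nat.eq_zero_or_pos y with rfl | hy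
  · refine ⟨0, ⟨0, hf0⟩, le_rfl, ?_⟩
    simp only [Nat.cast_zero, sub_self]
    positivity
  -- the largest `j` with `f j ≤ y`
  have hbound : ∀ j, f j ≤ y → j ≤ D * y := by
    intro j hj
    calc j ≤ j ^ k := Nat.le_self_pow (by omega) j
      _ ≤ D * f j := hlow j
      _ ≤ D * y := Nat.mul_le_mul_left D hj
  classical
  have hne : ((Finset.range (D * y + 1)).filter fun j => f j ≤ y).Nonempty :=
    ⟨0, by simp [hf0]⟩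
  obtain ⟨j, hj⟩ := Finset.exists_max_image _ id hne
  obtain ⟨hjm, hjmax⟩ := hj
  rw [Finset.mem_filter, Finset.mem_range] at hjm
  have hnext : y < f (j + 1) := by
    by_contra hcon
    have h1 : f (j + 1) ≤ y := not_lt.mp hcon
    have h2 := hjmax (j + 1) (Finset.mem_filter.2
      ⟨Finset.mem_range.2 (Nat.lt_succ_of_le (hbound _ h1)), h1⟩)
    simp only [id] at h2
    omega
  refine ⟨f j, ⟨j, rfl⟩, hjm.2, ?_⟩
  have h3 : (y : ℝ) - f j ≤ D * ((j : ℝ) ^ (k - 1) + 1) := by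
    have h4 := hstep j
    have h5 : y ≤ f j + D * (j ^ (k - 1) + 1) := by omega
    have h6 : (y : ℝ) ≤ f j + D * ((j : ℝ) ^ (k - 1) + 1) := by exact_mod_cast h5
    linarith
  have hy1 : (1 : ℝ) ≤ y := by exact_mod_cast hy
  have h7 : (j : ℝ) ^ (k - 1) ≤ (D : ℝ) ^ (1 - 1 / (k : ℝ)) * (y : ℝ) ^ (1 - 1 / (k : ℝ)) := by
    have h8 : ((j : ℝ) ^ k) ≤ D * y := by
      have h9 : j ^ k ≤ D * y := le_trans (hlow j) (Nat.mul_le_mul_left D hjm.2)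
      exact_mod_cast h9
    have h10 : (j : ℝ) ^ (k - 1) = ((j : ℝ) ^ k) ^ (1 - 1 / (k : ℝ)) := by
      rw [← Real.rpow_natCast (j : ℝ) k, ← Real.rpow_mul (Nat.cast_nonneg j),
        ← Real.rpow_natCast (j : ℝ) (k - 1)]
      congr 1
      rw [Nat.cast_sub (by omega)]
      field_simp
      simp
    rw [h10, ← Real.mul_rpow (Nat.cast_nonneg D) (Nat.cast_nonneg y)]
    exact Real.rpow_le_rpow (by positivity) h8 hθ0.le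
  have h11 : (1 : ℝ) ≤ (y : ℝ) ^ (1 - 1 / (k : ℝ)) := Real.one_le_rpow hy1 hθ0.le
  have hD : (0 : ℝ) ≤ D := Nat.cast_nonneg D
  calc (y : ℝ) - f j ≤ D * ((j : ℝ) ^ (k - 1) + 1) := h3
    _ ≤ D * ((D : ℝ) ^ (1 - 1 / (k : ℝ)) * (y : ℝ) ^ (1 - 1 / (k : ℝ)) +
        (y : ℝ) ^ (1 - 1 / (k : ℝ))) := by gcongr
    _ = D * ((D : ℝ) ^ (1 - 1 / (k : ℝ)) + 1) * (y : ℝ) ^ (1 - 1 / (k : ℝ)) := by ring

theorem gap_add {A B : Set ℕ} {κ θ : ℝ} (hκ : 0 ≤ κ) (hA : Gap A κ) (hB : Gap B θ) :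
    Gap {s | ∃ a ∈ A, ∃ b ∈ B, s = a + b} (κ * θ) := by
  obtain ⟨C, hC, hA⟩ := hA
  obtain ⟨E, hE, hB⟩ := hB
  refine ⟨C * E ^ κ, by positivity, fun y => ?_⟩
  obtain ⟨b, hb, hby, hb1⟩ := hB y
  obtain ⟨a, ha, hay, ha1⟩ := hA (y - b)
  refine ⟨a + b, ⟨a, ha, b, hb, rfl⟩, by omega, ?_⟩
  have h1 : ((y - b : ℕ) : ℝ) = y - b := Nat.cast_sub hby
  rw [h1] at ha1
  have h2 : (0 : ℝ) ≤ (y : ℝ) - b := by
    rw [sub_nonneg]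
    exact_mod_cast hby
  push_cast
  calc (y : ℝ) - (a + b) = (y - b) - a := by ring
    _ ≤ C * ((y : ℝ) - b) ^ κ := ha1
    _ ≤ C * (E * (y : ℝ) ^ θ) ^ κ := by gcongr
    _ = C * E ^ κ * (y : ℝ) ^ (κ * θ) := by
        rw [Real.mul_rpow hE (by positivity), ← Real.rpow_mul (Nat.cast_nonneg y), mul_comm θ κ]
        ring

/-- A set with gaps `≪ y ^ κ` and one perturbed `k`-th power. -/
theorem one_perturbed {Ω : Type*} [MeasurableSpace Ω] (P : Measure Ω) [IsProbabilityMeasure P]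
    (k : ℕ) (hk : 2 ≤ k) (δ : ℝ) (hδ0 : 0 < δ) (hδ1 : δ ≤ 1 - 1 / (k : ℝ)) (c : ℝ) (hc : 0 < c)
    (ξ : ℕ → Ω → ℕ) (hm : ∀ n, Measurable (ξ n)) (hind : iIndepFun ξ P)
    (hdens : ∀ n j : ℕ, 1 ≤ n → (j : ℝ) ≤ (n : ℝ) ^ (δ * k) →
      c / (n : ℝ) ^ (δ * k) ≤ P.real {ω | ξ n ω = j})
    (A : Set ℕ) (κ : ℝ) (hκ0 : 0 ≤ κ) (hκ : κ < δ) (hκk : κ * k < 1) (hA : Gap A κ) :
    ∀ᵐ ω ∂P, ∃ N₀ : ℕ, ∀ m : ℕ, N₀ ≤ m → ∃ a ∈ A, ∃ b : ℕ, 1 ≤ b ∧ m = a + (b ^ k + ξ b ω) := by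
  have hkR : (2 : ℝ) ≤ k := by exact_mod_cast hk
  have hkpos : (0 : ℝ) < k := by linarith
  have hδk : δ * k ≤ k - 1 := by
    have h1 : δ * k ≤ (1 - 1 / (k : ℝ)) * k := mul_le_mul_of_nonneg_right hδ1 hkpos.le
    have h2 : (1 - 1 / (k : ℝ)) * k = k - 1 := by field_simp
    linarith
  have hdens' : ∀ n j : ℕ, 1 ≤ n → (j : ℝ) ≤ (n : ℝ) ^ (δ * k) →
      c / (n : ℝ) ^ (δ * k) ≤ P.real (ξ n ⁻¹' {j}) := hdens
  obtain ⟨C, hC, hg⟩ := hA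
  have e1 := basis3 (P := P) ξ hm hind k hk δ hδ0 hδk c hc hdens' κ hκ0 hκ
    1 (by push_cast; exact hκk) C (fun _ _ => A) (fun _ _ _ _ => rfl)
    (by
      intro N ω y hy
      obtain ⟨s, hs, h2, h3⟩ := hg y
      refine ⟨s, hs, h2, le_trans h3 ?_⟩
      refine mul_le_mul_of_nonneg_left (Real.rpow_le_rpow (Nat.cast_nonneg y) ?_ hκ0) hC
      exact_mod_cast hy)
  filter_upwards [e1] with ω h1
  obtain ⟨N₁, hN₁⟩ := eventually_atTop.mp h1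
  refine ⟨N₁, fun m hm => ?_⟩
  obtain ⟨z, hz, b, hb1, hb⟩ := hN₁ m hm
  refine ⟨z, hz, b 0, hb1 0, ?_⟩
  rw [hb, Fin.sum_univ_one]

end Run7.h332.WP
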