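import Pool.Agent.Run7.h332.WP.Basis3

/-!
From an almost sure statement for all large m to a threshold that depends only on the law of the process.
-/

open MeasureTheory ProbabilityTheory Filter

universe u

namespace Run7.h332.WP

/-- If almost surely (in the product space) every large `m` has the property `R m`, then for each `ε > 0`
there is one threshold for all processes with the same marginal laws. -/
theorem tail (μ : ℕ → Measure ℕ) [∀ n, IsProbabilityMeasure (μ n)] (R : ℕ → (ℕ → ℕ) → Prop)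
    (hR : ∀ m, MeasurableSet {w : ℕ → ℕ | R m w})
    (has : ∀ᵐ w ∂(Measure.infinitePi μ), ∃ N₀ : ℕ, ∀ m, N₀ ≤ m → R m w) (ε : ℝ) (hε : 0 < ε) :
    ∃ N : ℕ, ∀ (Ω : Type u) [MeasurableSpace Ω] (P : Measure Ω) [IsProbabilityMeasure P]
      (ξ : ℕ → Ω → ℕ), (∀ n, Measurable (ξ n)) → iIndepFun ξ P → (∀ n, P.map (ξ n) = μ n) →
      1 - ε ≤ P.real {ω | ∀ m, N ≤ m → R m (fun n => ξ n ω)} := by
  have hAm : ∀ N : ℕ, MeasurableSet {w : ℕ → ℕ | ∀ m, N ≤ m → R m w} := by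
    intro N
    have h1 : {w : ℕ → ℕ | ∀ m, N ≤ m → R m w} = ⋂ m, ⋂ (_ : N ≤ m), {w | R m w} := by
      ext w
      simp
    rw [h1]
    exact MeasurableSet.iInter fun m => MeasurableSet.iInter fun _ => hR m
  have hmono : Monotone fun N : ℕ => {w : ℕ → ℕ | ∀ m, N ≤ m → R m w} :=
    fun a b hab w hw m hm => hw m (le_trans hab hm)
  have hU : (Measure.infinitePi μ) (⋃ N : ℕ, {w : ℕ → ℕ | ∀ m, N ≤ m → R m w}) = 1 := by
    have h1 : ∀ᵐ w ∂(Measure.infinitePi μ), w ∈ ⋃ N : ℕ, {w : ℕ → ℕ | ∀ m, N ≤ m → R m w} := by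
      filter_upwards [has] with w hw
      obtain ⟨N, h⟩ := hw
      exact Set.mem_iUnion.2 ⟨N, h⟩
    have h2 : (⋃ N : ℕ, {w : ℕ → ℕ | ∀ m, N ≤ m → R m w}) =ᵐ[Measure.infinitePi μ] Set.univ :=
      eventuallyEq_univ.2 h1
    rw [measure_congr h2, measure_univ]
  have htend := tendsto_measure_iUnion_atTop (μ := Measure.infinitePi μ) hmono
  rw [hU] at htend
  have hlt : ENNReal.ofReal (1 - ε) < 1 := ENNReal.ofReal_lt_one.2 (by linarith)
  obtain ⟨N, hN⟩ := (htend.eventually (lt_mem_nhds hlt)).exists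
  refine ⟨N, ?_⟩
  intro Ω _ P _ ξ hm hind hlaw
  have hmap : P.map (fun ω n => ξ n ω) = Measure.infinitePi μ := by
    rw [hind.map_fun_eq_infinitePi_map hm]
    simp only [hlaw]
  have hset : {ω | ∀ m, N ≤ m → R m (fun n => ξ n ω)} =
      (fun ω n => ξ n ω) ⁻¹' {w : ℕ → ℕ | ∀ m, N ≤ m → R m w} := rfl
  rw [hset, measureReal_def, ← Measure.map_apply (measurable_pi_iff.2 hm) (hAm N), hmap]
  have h2 := ENNReal.toReal_mono (measure_ne_top (Measure.infinitePi μ) _) hN.le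
  rw [ENNReal.toReal_ofReal'] at h2
  exact le_trans (le_max_left _ _) h2

/-- The uniform distribution on `0, ..., ⌊n ^ s⌋` gives each value `j ≤ n ^ s` probability at least
`1 / (2 n ^ s)`. -/
theorem unif (s : ℝ) (hs : 0 ≤ s) (n j : ℕ) (hn : 1 ≤ n) (hj : (j : ℝ) ≤ (n : ℝ) ^ s) :
    (1 / 2) / (n : ℝ) ^ s ≤
      (uniformOn (Finset.range (⌊(n : ℝ) ^ s⌋₊ + 1) : Set ℕ)).real {j} := by
  have hn1 : (1 : ℝ) ≤ n := by exact_mod_cast hn
  have h1 : (1 : ℝ) ≤ (n : ℝ) ^ s := Real.one_le_rpow hn1 hs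
  have hjM : j ∈ Finset.range (⌊(n : ℝ) ^ s⌋₊ + 1) :=
    Finset.mem_range.2 (Nat.lt_succ_of_le (Nat.le_floor hj))
  have h2 : (uniformOn (Finset.range (⌊(n : ℝ) ^ s⌋₊ + 1) : Set ℕ)).real {j} =
      1 / ((⌊(n : ℝ) ^ s⌋₊ : ℝ) + 1) := by
    rw [measureReal_def, ← Finset.coe_singleton, uniformOn_apply_finset,
      Finset.inter_singleton_of_mem hjM, Finset.card_singleton, Finset.card_range,
      ENNReal.toReal_div]
    norm_num
    rw [← Nat.cast_succ, ENNReal.toReal_natCast, Nat.cast_succ]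
  rw [h2, div_div, div_le_div_iff₀ (by positivity) (by positivity)]
  have h3 : (⌊(n : ℝ) ^ s⌋₊ : ℝ) ≤ (n : ℝ) ^ s := Nat.floor_le (by positivity)
  linarith

end Run7.h332.WP
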